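import Pool.Agent.Lib_helper54.Shadow.Step

/-!
# Folded spheres: the base case, a folded sphere in one dimension more
-/

namespace Pool.Agent.Lib_helper54.Shadow

open Set

variable {n : ℕ}

/-- linear coordinates on `ℝ^(n+2)` -/
noncomputable def T (y : Fin (n + 1) → ℝ) (c : ℝ) : Fin (n + 2) → ℝ :=
  Fin.cons (4 * c - ∑ j, y j) (y - c • Pi.single 0 3)

/-- the direction, seen in the hyperplane `c = 0`, of the `i`-th coordinate axis -/
noncomputable def u (i : Fin (n + 2)) : Fin (n + 1) → ℝ :=
  Fin.cases (motive := fun _ => Fin (n + 1) → ℝ) (-Pi.single 0 3)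
    (fun j => -(Pi.single 0 3 + Pi.single j 1)) i

lemma u_zero : u (0 : Fin (n + 2)) = -Pi.single 0 3 := rfl

lemma u_succ (j : Fin (n + 1)) : u j.succ = -(Pi.single 0 3 + Pi.single j 1) := rfl

lemma pr_T (i : Fin (n + 2)) (y : Fin (n + 1) → ℝ) (c : ℝ) :
    pr i (T y c) = pr i (T (y + c • u i) 0) := by
  unfold pr T
  induction i using Fin.cases with
  | zero =>
    rw [Fin.update_cons_zero, Fin.update_cons_zero, u_zero]
    simp [sub_eq_add_neg]
  | succ j =>
    rw [u_succ]
    have h1 : ∑ i, (y + c • -(Pi.single 0 3 + Pi.single j 1) : Fin (n + 1) → ℝ) i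
        = (∑ i, y i) - 4 * c := by
      simp only [Pi.add_apply, Pi.smul_apply, Pi.neg_apply, smul_eq_mul, Finset.sum_add_distrib,
        ← Finset.mul_sum, Finset.sum_neg_distrib, Finset.sum_pi_single']
      simp
      ring
    rw [h1, ← Fin.cons_update, ← Fin.cons_update]
    congr 1
    · ring
    · funext l
      rcases eq_or_ne l j with rfl | hl
      · simp
      · rw [Function.update_of_ne hl, Function.update_of_ne hl]
        simp [hl, sub_eq_add_neg]

lemma T0_inj (i : Fin (n + 2)) {y y' : Fin (n + 1) → ℝ} (hyy : pr i (T y 0) = pr i (T y' 0)) :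
    y = y' := by
  unfold pr T at hyy
  induction i using Fin.cases with
  | zero =>
    rw [Fin.update_cons_zero, Fin.update_cons_zero] at hyy
    have := Fin.cons_right_injective (α := fun _ => ℝ) _ hyy
    simpa using this
  | succ j =>
    rw [← Fin.cons_update, ← Fin.cons_update] at hyy
    have h1 := Fin.cons_inj.1 hyy
    obtain ⟨h2, h3⟩ := h1
    have h4 : ∀ l, l ≠ j → y l = y' l := by
      intro l hl
      have := congrFun h3 l
      rw [Function.update_of_ne hl, Function.update_of_ne hl] at this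
      simpa using this
    funext l
    rcases eq_or_ne l j with rfl | hl
    · have h5 : ∑ i, y i = ∑ i, y' i := by linarith
      rw [← Finset.add_sum_erase _ y (Finset.mem_univ l),
        ← Finset.add_sum_erase _ y' (Finset.mem_univ l)] at h5
      have h6 : ∑ i ∈ Finset.univ.erase l, y i = ∑ i ∈ Finset.univ.erase l, y' i :=
        Finset.sum_congr rfl fun i hi => h4 i (Finset.ne_of_mem_erase hi)
      linarith
    · exact h4 l hl

lemma T_inj {y y' : Fin (n + 1) → ℝ} {c c' : ℝ} (hyy : T y c = T y' c') : y = y' ∧ c = c' := by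
  unfold T at hyy
  obtain ⟨h1, h2⟩ := Fin.cons_inj.1 hyy
  have h3 : ∑ i, (y - c • Pi.single 0 3 : Fin (n + 1) → ℝ) i
      = ∑ i, (y' - c' • Pi.single 0 3 : Fin (n + 1) → ℝ) i := by rw [h2]
  simp only [Pi.sub_apply, Pi.smul_apply, smul_eq_mul, Finset.sum_sub_distrib,
    ← Finset.mul_sum, Finset.sum_pi_single'] at h3
  simp at h3
  have h4 : c = c' := by linarith
  refine ⟨?_, h4⟩
  rw [h4] at h2
  exact sub_left_injective h2

lemma norm_u_le (i : Fin (n + 2)) : ‖u i‖ ≤ 4 := by
  have h0 : ‖(Pi.single 0 3 : Fin (n + 1) → ℝ)‖ ≤ 3 := by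
    rw [pi_norm_le_iff_of_nonneg (by norm_num)]
    intro j
    rcases eq_or_ne j 0 with rfl | hj
    · simp
    · simp [hj]
  induction i using Fin.cases with
  | zero => rw [u_zero, norm_neg]; linarith
  | succ j =>
    rw [u_succ, norm_neg]
    have h1 : ‖(Pi.single j 1 : Fin (n + 1) → ℝ)‖ ≤ 1 := by
      rw [pi_norm_le_iff_of_nonneg (by norm_num)]
      intro l
      rcases eq_or_ne l j with rfl | hj
      · simp
      · simp [hj]
    calc _ ≤ _ := norm_add_le _ _
      _ ≤ 4 := by linarith

lemma u_apply_zero_le (i : Fin (n + 2)) : u i 0 ≤ -3 := by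
  induction i using Fin.cases with
  | zero => rw [u_zero]; simp
  | succ j =>
    rw [u_succ]
    rcases eq_or_ne 0 j with rfl | hj
    · simp
    · simp [hj]

lemma u_apply_zero_ge (i : Fin (n + 2)) : -4 ≤ u i 0 := by
  have h1 := norm_le_pi_norm (u i) 0
  rw [Real.norm_eq_abs] at h1
  have := (abs_le.1 (h1.trans (norm_u_le i))).1
  exact this

/-- planar coordinate -/
noncomputable def Y (x : Fin (n + 2) → ℝ) : Fin (n + 1) → ℝ := (7 - x 0) • Fin.tail x

/-- height of the unfolded sphere -/
noncomputable def c0 (x : Fin (n + 2) → ℝ) : ℝ := (1 / 30) * (x 0 * (6 - ‖Fin.tail x‖))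

/-- centre of the bump -/
noncomputable def ys : Fin (n + 1) → ℝ := Pi.single 0 42

/-- the bump -/
noncomputable def bt (y : Fin (n + 1) → ℝ) : ℝ := max 0 (1 - ‖y - ys‖)

/-- the bump, cut off at the south face -/
noncomputable def be (x : Fin (n + 2) → ℝ) : ℝ := min (bt (Y x)) (x 0 + 6)

/-- the folded sphere in `ℝ^(n+2)` -/
noncomputable def f0 (x : Fin (n + 2) → ℝ) : Fin (n + 2) → ℝ := T (Y x) (be x + c0 x)

/-- its shadows, unfolded -/
noncomputable def F0 (i : Fin (n + 2)) (x : Fin (n + 2) → ℝ) : Fin (n + 2) → ℝ :=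
  pr i (T (Y x) (c0 x))

/-- its invisible set -/
def U0 : Set (Fin (n + 2) → ℝ) := {x | |x 0| < 5} ∩ {x | 1 / 2 < bt (Y x)}

lemma continuous_tail : Continuous (fun x : Fin (n + 2) → ℝ => (Fin.tail x : Fin (n + 1) → ℝ)) :=
  continuous_pi fun j => continuous_apply j.succ

lemma continuous_Y : Continuous (Y (n := n)) := by
  unfold Y
  exact (continuous_const.sub (continuous_apply 0)).smul continuous_tail

lemma continuous_c0 : Continuous (c0 (n := n)) := by
  unfold c0
  exact continuous_const.mul ((continuous_apply 0).mul (continuous_const.sub continuous_tail.norm))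

lemma continuous_bt : Continuous (bt (n := n)) := by
  unfold bt
  fun_prop

lemma continuous_be : Continuous (be (n := n)) := by
  unfold be
  exact (continuous_bt.comp continuous_Y).min ((continuous_apply 0).add continuous_const)

lemma continuous_T : Continuous (fun p : (Fin (n + 1) → ℝ) × ℝ => T p.1 p.2) := by
  unfold T
  refine continuous_pi fun i => ?_
  induction i using Fin.cases with
  | zero => simp only [Fin.cons_zero]; fun_prop
  | succ j => simp only [Fin.cons_succ]; fun_prop

lemma continuous_pr {d : ℕ} (i : Fin d) : Continuous (pr i) := by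
  unfold pr
  exact continuous_id.update i continuous_const

lemma bt_nonneg (y : Fin (n + 1) → ℝ) : 0 ≤ bt y := le_max_left _ _

lemma bt_le_one (y : Fin (n + 1) → ℝ) : bt y ≤ 1 := by
  unfold bt
  exact max_le zero_le_one (by linarith [norm_nonneg (y - ys)])

lemma bt_pos {y : Fin (n + 1) → ℝ} (hy : 0 < bt y) : bt y = 1 - ‖y - ys‖ := by
  unfold bt at hy ⊢
  rcases lt_max_iff.1 hy with h1 | h1
  · exact absurd h1 (lt_irrefl _)
  · exact max_eq_right h1.le

lemma bt_zero {y : Fin (n + 1) → ℝ} (hy : 1 ≤ ‖y - ys‖) : bt y = 0 := by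
  unfold bt
  exact max_eq_left (by linarith)

lemma norm_ys : ‖(ys : Fin (n + 1) → ℝ)‖ = 42 := by
  unfold ys
  apply le_antisymm
  · rw [pi_norm_le_iff_of_nonneg (by norm_num)]
    intro j
    rcases eq_or_ne j 0 with rfl | hj
    · simp
    · simp [hj]
  · have := norm_le_pi_norm (Pi.single 0 42 : Fin (n + 1) → ℝ) 0
    simpa using this

lemma bt_zero' {y : Fin (n + 1) → ℝ} (hy : ‖y‖ ≤ 12 ∨ 72 ≤ ‖y‖) : bt y = 0 := by
  apply bt_zero
  have h1 := norm_ys (n := n)
  rcases hy with hy | hy
  · have := norm_sub_norm_le ys y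
    rw [norm_sub_rev] at this
    linarith
  · have := norm_sub_norm_le y ys
    linarith

lemma norm_cases {x : Fin (n + 2) → ℝ} (hx : x ∈ S (n + 1)) :
    |x 0| ≤ 6 ∧ ‖Fin.tail x‖ ≤ 6 ∧ (|x 0| < 6 → ‖Fin.tail x‖ = 6) := by
  have hx' : ‖x‖ = 6 := hx
  have h1 : |x 0| ≤ 6 := by
    rw [← hx', ← Real.norm_eq_abs]; exact norm_le_pi_norm x 0
  have h2 : ‖Fin.tail x‖ ≤ 6 := by
    rw [pi_norm_le_iff_of_nonneg (by norm_num)]
    intro j
    rw [← hx']; exact norm_le_pi_norm x j.succ
  refine ⟨h1, h2, fun h3 => le_antisymm h2 ?_⟩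
  by_contra h4
  push Not at h4
  have : ‖x‖ < 6 := by
    rw [pi_norm_lt_iff (by norm_num)]
    intro j
    induction j using Fin.cases with
    | zero => rwa [Real.norm_eq_abs]
    | succ j =>
      exact lt_of_le_of_lt (norm_le_pi_norm (Fin.tail x : Fin (n + 1) → ℝ) j) h4
  linarith

lemma norm_Y {x : Fin (n + 2) → ℝ} (hx : x ∈ S (n + 1)) : ‖Y x‖ = (7 - x 0) * ‖Fin.tail x‖ := by
  unfold Y
  rw [norm_smul, Real.norm_of_nonneg]
  have := (abs_le.1 (norm_cases hx).1).2
  linarith

lemma be_nonneg {x : Fin (n + 2) → ℝ} (hx : x ∈ S (n + 1)) : 0 ≤ be x := by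
  unfold be
  have := (abs_le.1 (norm_cases hx).1).1
  exact le_min (bt_nonneg _) (by linarith)

lemma be_cap {x : Fin (n + 2) → ℝ} (hx : x ∈ S (n + 1)) (h5 : 5 ≤ |x 0|) : be x = 0 := by
  obtain ⟨h1, h2, h3⟩ := norm_cases hx
  have h4 := abs_le.1 h1
  have hY := norm_Y hx
  rcases le_abs'.1 h5 with h6 | h6
  · rcases eq_or_lt_of_le h4.1 with h7 | h7
    · apply le_antisymm _ (be_nonneg hx)
      unfold be
      exact (min_le_right _ _).trans (by linarith)
    · have h8 : |x 0| < 6 := by rw [abs_lt]; constructor <;> linarith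
      have h9 := h3 h8
      rw [h9] at hY
      unfold be
      rw [bt_zero' (Or.inr (by nlinarith)), min_eq_left (by linarith)]
  · unfold be
    rw [bt_zero' (Or.inl ?_), min_eq_left (by linarith)]
    rw [hY]
    nlinarith [norm_nonneg (Fin.tail x)]

lemma be_mid {x : Fin (n + 2) → ℝ} (h5 : |x 0| ≤ 5) : be x = bt (Y x) := by
  unfold be
  apply min_eq_left
  have := (abs_le.1 h5).1
  linarith [bt_le_one (Y x)]

lemma c0_mid {x : Fin (n + 2) → ℝ} (hx : x ∈ S (n + 1)) (h5 : |x 0| ≤ 5) : c0 x = 0 := by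
  unfold c0
  rw [(norm_cases hx).2.2 (by linarith)]
  ring

lemma exists_mid {q : Fin (n + 1) → ℝ} (h1 : 12 ≤ ‖q‖) (h2 : ‖q‖ ≤ 72) :
    ∃ z ∈ S (n + 1), |z 0| ≤ 5 ∧ Y z = q := by
  have hq : (0 : ℝ) < ‖q‖ := by linarith
  set z : Fin (n + 2) → ℝ := Fin.cons (7 - ‖q‖ / 6) ((6 / ‖q‖) • q) with hz
  have ht : Fin.tail z = (6 / ‖q‖) • q := by rw [hz, Fin.tail_cons]
  have h0 : z 0 = 7 - ‖q‖ / 6 := by rw [hz, Fin.cons_zero]
  have htn : ‖Fin.tail z‖ = 6 := by
    rw [ht, norm_smul, Real.norm_of_nonneg (by positivity)]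
    field_simp
  have h5 : |z 0| ≤ 5 := by
    rw [h0, abs_le]; constructor <;> linarith
  refine ⟨z, ?_, h5, ?_⟩
  · show ‖z‖ = 6
    apply le_antisymm
    · rw [pi_norm_le_iff_of_nonneg (by norm_num)]
      intro j
      induction j using Fin.cases with
      | zero => rw [Real.norm_eq_abs]; linarith
      | succ j => exact (norm_le_pi_norm (Fin.tail z : Fin (n + 1) → ℝ) j).trans htn.le
    · rw [← htn, pi_norm_le_iff_of_nonneg (norm_nonneg _)]
      intro j
      exact norm_le_pi_norm z j.succ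
  · unfold Y
    rw [ht, h0, smul_smul]
    have : (7 - (7 - ‖q‖ / 6)) * (6 / ‖q‖) = 1 := by field_simp; ring
    rw [this, one_smul]

lemma shift_bounds (i : Fin (n + 2)) {y : Fin (n + 1) → ℝ} (hy : 0 < bt y) :
    12 ≤ ‖y + bt y • u i‖ ∧ ‖y + bt y • u i‖ ≤ 72 := by
  have h1 := bt_pos hy
  have h2 : ‖y - ys‖ < 1 := by linarith
  have h3 : ‖y - ys‖ ≤ 1 := h2.le
  have h4 : |y 0 - 42| ≤ 1 := by
    have := norm_le_pi_norm (y - ys) 0
    rw [Real.norm_eq_abs] at this
    simp only [ys, Pi.sub_apply, Pi.single_eq_same] at this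
    exact this.trans h3
  have h5 := abs_le.1 h4
  constructor
  · have h6 := norm_le_pi_norm (y + bt y • u i) 0
    rw [Real.norm_eq_abs] at h6
    refine le_trans ?_ h6
    refine le_trans ?_ (le_abs_self _)
    simp only [Pi.add_apply, Pi.smul_apply, smul_eq_mul]
    have h7 := u_apply_zero_ge i
    nlinarith [bt_le_one y]
  · have h6 : ‖y‖ ≤ 43 := by
      have := norm_add_le (y - ys) ys
      rw [sub_add_cancel, norm_ys] at this
      linarith
    have h7 : ‖bt y • u i‖ ≤ 4 := by
      rw [norm_smul, Real.norm_of_nonneg (bt_nonneg y)]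
      have := norm_u_le i
      nlinarith [bt_le_one y, bt_nonneg y, norm_nonneg (u i)]
    have := norm_add_le y (bt y • u i)
    linarith

lemma bt_bounds {y : Fin (n + 1) → ℝ} (hy : 0 < bt y) : 12 ≤ ‖y‖ ∧ ‖y‖ ≤ 72 := by
  by_contra hc
  rw [bt_zero'] at hy
  · exact lt_irrefl _ hy
  · by_contra hc2
    push Not at hc2
    exact hc ⟨hc2.1.le, hc2.2.le⟩

theorem base : Folded (n + 1) (n + 2) f0 F0 U0 where
  cf := by
    unfold f0
    exact continuous_T.comp (continuous_Y.prodMk (continuous_be.add continuous_c0))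
  inj := by
    have key : ∀ x ∈ S (n + 1), ∀ y ∈ S (n + 1), f0 x = f0 y → x 0 < y 0 → False := by
      intro x hx y hy hxy hlt
      obtain ⟨h1, h2⟩ := T_inj hxy
      obtain ⟨hx1, hx2, hx3⟩ := norm_cases hx
      obtain ⟨hy1, hy2, hy3⟩ := norm_cases hy
      have hx4 := abs_le.1 hx1
      have hy4 := abs_le.1 hy1
      have hYx := norm_Y hx
      have hYy := norm_Y hy
      rw [h1] at hYx
      rw [hYx] at hYy
      rcases eq_or_lt_of_le hx4.1 with h7 | h7
      · have h8 : be x = 0 := be_cap hx (by rw [← h7]; norm_num)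
        have h9 : ‖Fin.tail x‖ < 6 := by nlinarith
        have h10 : c0 x < 0 := by
          unfold c0
          rw [← h7]
          nlinarith
        have h11 : 0 ≤ c0 y := by
          unfold c0
          rcases lt_or_ge |y 0| 6 with h12 | h12
          · rw [hy3 h12]; simp
          · have h13 : 0 ≤ y 0 := by
              rcases le_abs'.1 h12 with h13 | h13 <;> linarith
            have h14 : 0 ≤ 6 - ‖Fin.tail y‖ := by linarith
            positivity
        have := be_nonneg hy
        linarith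
      · have h8 : |x 0| < 6 := by rw [abs_lt]; constructor <;> linarith
        rw [hx3 h8] at hYy
        nlinarith
    intro x hx y hy hxy
    rcases lt_trichotomy (x 0) (y 0) with h0 | h0 | h0
    · exact (key x hx y hy hxy h0).elim
    · obtain ⟨h1, -⟩ := T_inj hxy
      unfold Y at h1
      rw [h0] at h1
      have h2 := (abs_le.1 (norm_cases hy).1).2
      have h3 : Fin.tail x = Fin.tail y := smul_right_injective _ (by linarith : (7 - y 0) ≠ 0) h1
      rw [← Fin.cons_self_tail x, ← Fin.cons_self_tail y, h0, h3]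
    · exact (key y hy x hx hxy.symm h0).elim
  cF := by
    intro i
    unfold F0
    exact (continuous_pr i).comp (continuous_T.comp (continuous_Y.prodMk continuous_c0))
  injM := by
    rintro i x ⟨hx, hx5⟩ y ⟨hy, hy5⟩ hxy
    simp only [mem_ofPred_eq] at hx5 hy5
    unfold F0 at hxy
    rw [c0_mid hx hx5, c0_mid hy hy5] at hxy
    have h1 := T0_inj i hxy
    have h2 := norm_Y hx
    have h3 := norm_Y hy
    rw [(norm_cases hx).2.2 (by linarith)] at h2
    rw [(norm_cases hy).2.2 (by linarith), ← h1] at h3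
    have h0 : x 0 = y 0 := by linarith
    unfold Y at h1
    rw [h0] at h1
    have h4 := (abs_le.1 hy5).2
    have h5 : Fin.tail x = Fin.tail y := smul_right_injective _ (by linarith : (7 - y 0) ≠ 0) h1
    rw [← Fin.cons_self_tail x, ← Fin.cons_self_tail y, h0, h5]
  injS := by
    rintro i c x ⟨hx, hx5⟩ y ⟨hy, hy5⟩ hxy
    simp only [mem_ofPred_eq] at hx5 hy5
    unfold F0 at hxy
    rw [pr_T, pr_T i (Y y)] at hxy
    have h1 := T0_inj i hxy
    obtain ⟨hx1, -, -⟩ := norm_cases hx
    rw [hx5] at hx1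
    have h2 : (7 - c) • (Fin.tail x - Fin.tail y)
        = ((1 / 30) * (c * (‖Fin.tail x‖ - ‖Fin.tail y‖))) • u i := by
      unfold Y c0 at h1
      rw [hx5, hy5] at h1
      have h3 : (7 - c) • Fin.tail x - (7 - c) • Fin.tail y
          = (1 / 30 * (c * (6 - ‖Fin.tail y‖))) • u i - (1 / 30 * (c * (6 - ‖Fin.tail x‖))) • u i := by
        rw [sub_eq_sub_iff_add_eq_add, h1]
        abel
      rw [smul_sub, h3, ← sub_smul]
      congr 1; ring
    have h4 := abs_le.1 hx1
    have h5 : (7 - c) * ‖Fin.tail x - Fin.tail y‖ ≤ (24 / 30) * ‖Fin.tail x - Fin.tail y‖ := by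
      calc (7 - c) * ‖Fin.tail x - Fin.tail y‖ = ‖(7 - c) • (Fin.tail x - Fin.tail y)‖ := by
            rw [norm_smul, Real.norm_of_nonneg (by linarith)]
        _ = ‖((1 / 30) * (c * (‖Fin.tail x‖ - ‖Fin.tail y‖))) • u i‖ := by rw [h2]
        _ = 1 / 30 * (|c| * |‖Fin.tail x‖ - ‖Fin.tail y‖|) * ‖u i‖ := by
            rw [norm_smul, Real.norm_eq_abs, abs_mul, abs_mul]
            congr 2
            norm_num
        _ ≤ 1 / 30 * (6 * ‖Fin.tail x - Fin.tail y‖) * 4 := by
            have := abs_norm_sub_norm_le (Fin.tail x) (Fin.tail y)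
            have := norm_u_le i
            gcongr
        _ = _ := by ring
    have h6 : ‖Fin.tail x - Fin.tail y‖ = 0 := by
      nlinarith [norm_nonneg (Fin.tail x - Fin.tail y)]
    have h7 : Fin.tail x = Fin.tail y := by
      rwa [norm_eq_zero, sub_eq_zero] at h6
    rw [← Fin.cons_self_tail x, ← Fin.cons_self_tail y, hx5, hy5, h7]
  cap := by
    intro i x hx h5
    unfold f0 F0
    rw [be_cap hx h5, zero_add]
  into := by
    intro i x hx h5
    unfold f0
    rw [c0_mid hx h5, be_mid h5, add_zero]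
    rcases eq_or_lt_of_le (bt_nonneg (Y x)) with h0 | h0
    · refine ⟨x, hx, h5, ?_⟩
      unfold F0
      rw [c0_mid hx h5, ← h0]
    · obtain ⟨h1, h2⟩ := shift_bounds i h0
      obtain ⟨z, hz, hz5, hzY⟩ := exists_mid h1 h2
      refine ⟨z, hz, hz5, ?_⟩
      unfold F0
      rw [c0_mid hz hz5, hzY, ← pr_T]
  onto := by
    intro i z hz h5
    have hY := norm_Y hz
    rw [(norm_cases hz).2.2 (by linarith)] at hY
    obtain ⟨h5a, h5b⟩ := abs_le.1 h5
    set q := Y z with hq
    -- intermediate value theorem on the line through `q` in direction `u i`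
    have hcont : Continuous (fun s : ℝ => s - bt (q - s • u i)) := by
      have := continuous_bt (n := n)
      fun_prop
    have hex : ∃ s ∈ Icc (0 : ℝ) 1, s - bt (q - s • u i) = 0 := by
      have := intermediate_value_Icc (zero_le_one' ℝ) hcont.continuousOn
      apply this
      simp only [zero_smul, sub_zero, zero_sub, mem_Icc, Left.neg_nonpos_iff, sub_nonneg]
      exact ⟨bt_nonneg _, bt_le_one _⟩
    obtain ⟨s, ⟨hs0, hs1⟩, hs⟩ := hex
    set y := q - s • u i with hy
    have hsy : bt y = s := by linarith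
    have hyq : y + bt y • u i = q := by rw [hsy, hy]; abel
    have hyb : 12 ≤ ‖y‖ ∧ ‖y‖ ≤ 72 := by
      rcases eq_or_lt_of_le hs0 with h0 | h0
      · have : y = q := by rw [hy, ← h0]; simp
        rw [this, hY]
        constructor <;> linarith
      · exact bt_bounds (by rw [hsy]; exact h0)
    by_cases hU : 1 / 2 < bt y
    · -- then `q` itself is a fixed point outside the bump
      have h1 := bt_pos (by linarith : 0 < bt y)
      have h2 : bt q = 0 := by
        apply bt_zero
        have h3 := norm_le_pi_norm (q - ys) 0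
        refine le_trans ?_ h3
        rw [Real.norm_eq_abs]
        have h4 : |y 0 - 42| ≤ 1 - bt y := by
          have := norm_le_pi_norm (y - ys) 0
          rw [Real.norm_eq_abs] at this
          simp only [ys, Pi.sub_apply, Pi.single_eq_same] at this
          refine this.trans ?_
          unfold ys at h1
          linarith
        have h6 : q 0 = y 0 + bt y * u i 0 := by rw [← hyq]; simp
        have h7 := u_apply_zero_le i
        have h8 := abs_le.1 h4
        simp only [ys, Pi.sub_apply, Pi.single_eq_same]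
        rw [h6, abs_sub_comm]
        refine le_trans ?_ (le_abs_self _)
        nlinarith
      refine ⟨z, hz, h5, ?_, ?_⟩
      · rintro ⟨-, h3⟩
        simp only [mem_ofPred_eq] at h3
        rw [← hq, h2] at h3
        linarith
      · unfold f0 F0
        rw [be_mid h5, c0_mid hz h5, ← hq, h2, add_zero]
    · obtain ⟨x, hx, hx5, hxY⟩ := exists_mid hyb.1 hyb.2
      refine ⟨x, hx, hx5, ?_, ?_⟩
      · rintro ⟨-, h3⟩
        simp only [mem_ofPred_eq] at h3
        rw [hxY] at h3
        exact hU h3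
      · unfold f0 F0
        rw [be_mid hx5, c0_mid hx hx5, c0_mid hz h5, ← hq, hxY, add_zero, pr_T, hyq]
  openU := by
    refine IsOpen.inter ?_ ?_
    · exact isOpen_lt (continuous_abs.comp (continuous_apply 0)) continuous_const
    · exact isOpen_lt continuous_const (continuous_bt.comp continuous_Y)
  neU := by
    have h1 : 12 ≤ ‖(ys : Fin (n + 1) → ℝ)‖ := by rw [norm_ys]; norm_num
    have h2 : ‖(ys : Fin (n + 1) → ℝ)‖ ≤ 72 := by rw [norm_ys]; norm_num
    refine ⟨Fin.cons 0 (Pi.single 0 6), ?_, ?_, ?_⟩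
    · show ‖_‖ = (6 : ℝ)
      apply le_antisymm
      · rw [pi_norm_le_iff_of_nonneg (by norm_num)]
        intro j
        induction j using Fin.cases with
        | zero => simp
        | succ j =>
          rw [Fin.cons_succ]
          rcases eq_or_ne j 0 with rfl | hj
          · simp
          · simp [hj]
      · have := norm_le_pi_norm (Fin.cons 0 (Pi.single 0 6) : Fin (n + 2) → ℝ) (Fin.succ 0)
        rw [Fin.cons_succ, Pi.single_eq_same] at this
        simpa using this
    · simp
    · simp only [mem_ofPred_eq, Y, Fin.cons_zero, Fin.tail_cons, sub_zero, bt, ys]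
      have : (7 : ℝ) • (Pi.single 0 6 : Fin (n + 1) → ℝ) - Pi.single 0 42 = 0 := by
        rw [← Pi.single_smul]; norm_num
      rw [this]
      norm_num
  subU := by
    rintro x ⟨hx, -⟩
    exact hx

end Pool.Agent.Lib_helper54.Shadow
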