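import Pool.Agent.Lib_helper54.Shadow.Base

/-!
# Removing a small cap from a sphere leaves a ball
-/

namespace Pool.Agent.Lib_helper54.Shadow

open Set Metric Topology Module

/-- radial map from the round sphere to the boundary of the cube -/
noncomputable def A {n : ℕ} (v : sphere (0 : EuclideanSpace ℝ (Fin (n + 1))) 1) :
    Fin (n + 1) → ℝ := (6 / ‖WithLp.ofLp (v : EuclideanSpace ℝ (Fin (n + 1)))‖) •
      WithLp.ofLp (v : EuclideanSpace ℝ (Fin (n + 1)))

lemma ofLp_ne {n : ℕ} (v : sphere (0 : EuclideanSpace ℝ (Fin (n + 1))) 1) :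
    0 < ‖WithLp.ofLp (v : EuclideanSpace ℝ (Fin (n + 1)))‖ := by
  rw [norm_pos_iff]
  intro h0
  have h1 : (v : EuclideanSpace ℝ (Fin (n + 1))) = 0 := by
    ext i; exact congrFun h0 i
  have h2 := v.2
  rw [mem_sphere, dist_zero_right, h1, norm_zero] at h2
  exact zero_ne_one h2

lemma continuous_A {n : ℕ} : Continuous (A (n := n)) := by
  unfold A
  have h1 : Continuous fun v : sphere (0 : EuclideanSpace ℝ (Fin (n + 1))) 1 =>
      WithLp.ofLp (v : EuclideanSpace ℝ (Fin (n + 1))) := by fun_prop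
  exact (continuous_const.div h1.norm fun v => (ofLp_ne v).ne').smul h1

lemma A_mem {n : ℕ} (v : sphere (0 : EuclideanSpace ℝ (Fin (n + 1))) 1) : A v ∈ S n := by
  show ‖A v‖ = 6
  have := ofLp_ne v
  unfold A
  rw [norm_smul, Real.norm_of_nonneg (by positivity)]
  field_simp

lemma A_inj {n : ℕ} : Function.Injective (A (n := n)) := by
  intro v w hvw
  unfold A at hvw
  set a := 6 / ‖WithLp.ofLp (v : EuclideanSpace ℝ (Fin (n + 1)))‖
  set b := 6 / ‖WithLp.ofLp (w : EuclideanSpace ℝ (Fin (n + 1)))‖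
  have ha : 0 < a := div_pos (by norm_num) (ofLp_ne v)
  have hb : 0 < b := div_pos (by norm_num) (ofLp_ne w)
  have h1 : a • (v : EuclideanSpace ℝ (Fin (n + 1))) = b • (w : EuclideanSpace ℝ (Fin (n + 1))) := by
    ext i; exact congrFun hvw i
  have h2 := congrArg norm h1
  have hv := v.2
  have hw := w.2
  rw [mem_sphere, dist_zero_right] at hv hw
  rw [norm_smul, norm_smul, hv, hw, Real.norm_of_nonneg ha.le, Real.norm_of_nonneg hb.le, mul_one,
    mul_one] at h2
  rw [h2] at h1
  exact Subtype.ext (smul_right_injective _ hb.ne' h1)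

lemma A_surj {n : ℕ} {x : Fin (n + 1) → ℝ} (hx : x ∈ S n) : ∃ v, A v = x := by
  have hx' : ‖x‖ = 6 := hx
  set w : EuclideanSpace ℝ (Fin (n + 1)) := WithLp.toLp 2 x with hw
  have hw0 : w ≠ 0 := by
    intro h0
    have : x = 0 := by
      funext i
      have := congrArg (fun z : EuclideanSpace ℝ (Fin (n + 1)) => z i) h0
      simpa using this
    rw [this, norm_zero] at hx'
    norm_num at hx'
  have hw1 : 0 < ‖w‖ := norm_pos_iff.2 hw0
  refine ⟨⟨‖w‖⁻¹ • w, ?_⟩, ?_⟩
  · rw [mem_sphere, dist_zero_right, norm_smul, norm_inv, norm_norm, inv_mul_cancel₀ hw1.ne']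
  · unfold A
    have h1 : WithLp.ofLp (‖w‖⁻¹ • w) = ‖w‖⁻¹ • x := by rw [hw]; rfl
    simp only [h1]
    rw [norm_smul, norm_inv, norm_norm, hx', smul_smul]
    have : 6 / (‖w‖⁻¹ * 6) * ‖w‖⁻¹ = 1 := by field_simp
    rw [this, one_smul]

/-- For an open subset `O` of the round sphere there is an injective continuous map of the closed
ball into the sphere which covers the complement of `O`. -/
lemma exists_ball {n : ℕ} {O : Set (sphere (0 : EuclideanSpace ℝ (Fin (n + 1))) 1)}
    (hO : IsOpen O) (hne : O.Nonempty) :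
    ∃ j : closedBall (0 : EuclideanSpace ℝ (Fin n)) 1 →
      sphere (0 : EuclideanSpace ℝ (Fin (n + 1))) 1,
      Continuous j ∧ Function.Injective j ∧ Oᶜ ⊆ range j := by
  obtain ⟨v, hv⟩ := hne
  have : Fact (finrank ℝ (EuclideanSpace ℝ (Fin (n + 1))) = n + 1) :=
    ⟨finrank_euclideanSpace_fin⟩
  set φ := stereographic' n v with hφ
  have hK : IsCompact Oᶜ := hO.isClosed_compl.isCompact
  have hKs : Oᶜ ⊆ φ.source := by
    rw [hφ, stereographic'_source]
    intro x hx hxv
    rw [mem_singleton_iff] at hxv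
    exact hx (hxv ▸ hv)
  have hKc : IsCompact (φ '' Oᶜ) := hK.image_of_continuousOn (φ.continuousOn.mono hKs)
  obtain ⟨R, hR0, hR⟩ := hKc.isBounded.subset_closedBall_lt 0 0
  have hts : ∀ w, w ∈ φ.target := by
    intro w; rw [hφ, stereographic'_target]; exact mem_univ _
  refine ⟨fun w => φ.symm (R • (w : EuclideanSpace ℝ (Fin n))), ?_, ?_, ?_⟩
  · have h1 : Continuous φ.symm := by
      rw [← continuousOn_univ]
      have := φ.symm.continuousOn
      rwa [φ.symm_source, hφ, stereographic'_target] at this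
    exact h1.comp (by fun_prop)
  · intro w w' hww
    have := φ.symm.injOn (hts _) (hts _) hww
    exact Subtype.ext (smul_right_injective _ hR0.ne' this)
  · intro x hx
    have hx' : φ x ∈ closedBall (0 : EuclideanSpace ℝ (Fin n)) R := hR ⟨x, hx, rfl⟩
    rw [mem_closedBall, dist_zero_right] at hx'
    refine ⟨⟨R⁻¹ • φ x, ?_⟩, ?_⟩
    · rw [mem_closedBall, dist_zero_right, norm_smul, norm_inv, Real.norm_of_nonneg hR0.le,
        inv_mul_le_iff₀ hR0, mul_one]
      exact hx'
    · simp only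
      rw [smul_smul, mul_inv_cancel₀ hR0.ne', one_smul]
      exact φ.left_inv (hKs hx)

/-- For `d ≥ k + 2`, `k ≥ 1` there is an injectively embedded `k`-ball in `ℝ^d` such that each of
its coordinate shadows is an injectively embedded `k`-sphere. -/
theorem exists_all {k d : ℕ} (hk : 1 ≤ k) (hd : k + 2 ≤ d) :
    ∃ (b : closedBall (0 : EuclideanSpace ℝ (Fin k)) 1 → (Fin d → ℝ)),
      Continuous b ∧ Function.Injective b ∧ ∀ i : Fin d,
      ∃ s : sphere (0 : EuclideanSpace ℝ (Fin (k + 1))) 1 → (Fin d → ℝ),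
        Continuous s ∧ Function.Injective s ∧ range s = pr i '' range b := by
  obtain ⟨n, rfl⟩ : ∃ n, k = n + 1 := ⟨k - 1, by omega⟩
  -- iterate the step
  have main : ∀ m : ℕ, ∃ (f : (Fin (n + 1 + 1) → ℝ) → (Fin (n + 1 + 2 + m) → ℝ))
      (F : Fin (n + 1 + 2 + m) → (Fin (n + 1 + 1) → ℝ) → (Fin (n + 1 + 2 + m) → ℝ))
      (U : Set (Fin (n + 1 + 1) → ℝ)),
      Folded (n + 1) (n + 1 + 2 + m) f F U ∧ ∀ i, InjOn (F i) (S (n + 1)) := by
    intro m
    induction m with
    | zero => exact ⟨f' f0, F' f0 F0, U' U0, base.step, fun i => base.inj' i⟩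
    | succ m ih =>
      obtain ⟨f, F, U, H, -⟩ := ih
      exact ⟨f' f, F' f F, U' U, H.step, fun i => H.inj' i⟩
  obtain ⟨m, rfl⟩ : ∃ m, d = n + 1 + 2 + m := ⟨d - (n + 1 + 2), by omega⟩
  obtain ⟨f, F, U, H, hF⟩ := main m
  have hO : IsOpen (A (n := n + 1) ⁻¹' U) := H.openU.preimage continuous_A
  have hne : (A (n := n + 1) ⁻¹' U).Nonempty := by
    obtain ⟨x, hx, hxU⟩ := H.neU
    obtain ⟨v, rfl⟩ := A_surj hx
    exact ⟨v, hxU⟩
  obtain ⟨j, hj1, hj2, hj3⟩ := exists_ball hO hne
  refine ⟨fun w => f (A (j w)), H.cf.comp (continuous_A.comp hj1), ?_, ?_⟩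
  · intro w w' hww
    exact hj2 (A_inj (H.inj (A_mem _) (A_mem _) hww))
  · intro i
    refine ⟨fun v => F i (A v), (H.cF i).comp continuous_A, ?_, ?_⟩
    · intro v w hvw
      exact A_inj (hF i (A_mem _) (A_mem _) hvw)
    · have h1 : range (fun w => f (A (j w))) = f '' (range fun w => A (j w)) := by
        rw [← range_comp]; rfl
      have h2 : range (fun v => F i (A v)) = F i '' (S (n + 1)) := by
        have h3 : S (n + 1) = range (A (n := n + 1)) := by
          apply Subset.antisymm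
          · intro x hx
            exact A_surj hx
          · rintro _ ⟨v, rfl⟩
            exact A_mem v
        rw [h3, ← range_comp]; rfl
      rw [h1, h2]
      refine (H.image i ?_ ?_).symm
      · rintro _ ⟨w, rfl⟩; exact A_mem _
      · rintro x ⟨hx, hxU⟩
        obtain ⟨v, rfl⟩ := A_surj hx
        obtain ⟨w, hw⟩ := hj3 (show v ∈ (A (n := n + 1) ⁻¹' U)ᶜ from hxU)
        exact ⟨w, by simp only [hw]⟩

end Pool.Agent.Lib_helper54.Shadow
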