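import Mathlib

/-!
# The S-shaped planar path used for folding
-/

namespace Pool.Agent.Lib_helper54.Shadow

/-- clamp to `[-5,5]` -/
noncomputable def cl (a : ℝ) : ℝ := max (-5) (min 5 a)

/-- horizontal coordinate of the S-shaped path -/
noncomputable def g (t : ℝ) : ℝ := t - cl t + cl (5 * t + 20) - cl (5 * t) + cl (5 * t - 20)

/-- vertical coordinate of the S-shaped path -/
noncomputable def h (t : ℝ) : ℝ :=
  (t - cl t) + max 0 (min 1 ((t + 3) / 2)) + max 0 (min 1 ((t - 1) / 2))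

lemma cl_of_le {a : ℝ} (ha : a ≤ -5) : cl a = -5 := by
  unfold cl; rw [min_eq_right (by linarith), max_eq_left ha]

lemma cl_of_ge {a : ℝ} (ha : 5 ≤ a) : cl a = 5 := by
  unfold cl; rw [min_eq_left ha, max_eq_right (by norm_num)]

lemma cl_of_mem {a : ℝ} (h1 : -5 ≤ a) (h2 : a ≤ 5) : cl a = a := by
  unfold cl; rw [min_eq_right h2, max_eq_right h1]

lemma c1_of_le {a : ℝ} (ha : a ≤ 0) : max 0 (min 1 a) = 0 := by
  rw [min_eq_right (by linarith), max_eq_left ha]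

lemma c1_of_ge {a : ℝ} (ha : 1 ≤ a) : max 0 (min 1 a) = 1 := by
  rw [min_eq_left ha, max_eq_right (by norm_num)]

lemma c1_of_mem {a : ℝ} (h1 : 0 ≤ a) (h2 : a ≤ 1) : max 0 (min 1 a) = a := by
  rw [min_eq_right h2, max_eq_right h1]

lemma continuous_cl : Continuous cl := by unfold cl; fun_prop

lemma continuous_g : Continuous g := by
  unfold g
  have := continuous_cl
  fun_prop

lemma continuous_h : Continuous h := by
  unfold h
  have := continuous_cl
  fun_prop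

lemma gh0 {t : ℝ} (ht : t ≤ -5) : g t = t ∧ h t = t + 5 := by
  unfold g h
  rw [cl_of_le ht, cl_of_le (a := 5 * t + 20) (by linarith), cl_of_le (a := 5 * t) (by linarith),
    cl_of_le (a := 5 * t - 20) (by linarith), c1_of_le (a := (t + 3) / 2) (by linarith),
    c1_of_le (a := (t - 1) / 2) (by linarith)]
  constructor <;> ring

lemma gh1 {t : ℝ} (ht : -5 ≤ t) (ht' : t ≤ -3) : g t = 5 * t + 20 ∧ h t = 0 := by
  unfold g h
  rw [cl_of_mem ht (by linarith), cl_of_mem (a := 5 * t + 20) (by linarith) (by linarith),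
    cl_of_le (a := 5 * t) (by linarith),
    cl_of_le (a := 5 * t - 20) (by linarith), c1_of_le (a := (t + 3) / 2) (by linarith),
    c1_of_le (a := (t - 1) / 2) (by linarith)]
  constructor <;> ring

lemma gh2 {t : ℝ} (ht : -3 ≤ t) (ht' : t ≤ -1) : g t = 5 ∧ h t = (t + 3) / 2 := by
  unfold g h
  rw [cl_of_mem (a := t) (by linarith) (by linarith), cl_of_ge (a := 5 * t + 20) (by linarith),
    cl_of_le (a := 5 * t) (by linarith),
    cl_of_le (a := 5 * t - 20) (by linarith), c1_of_mem (a := (t + 3) / 2) (by linarith) (by linarith),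
    c1_of_le (a := (t - 1) / 2) (by linarith)]
  constructor <;> ring

lemma gh3 {t : ℝ} (ht : -1 ≤ t) (ht' : t ≤ 1) : g t = -5 * t ∧ h t = 1 := by
  unfold g h
  rw [cl_of_mem (a := t) (by linarith) (by linarith), cl_of_ge (a := 5 * t + 20) (by linarith),
    cl_of_mem (a := 5 * t) (by linarith) (by linarith),
    cl_of_le (a := 5 * t - 20) (by linarith), c1_of_ge (a := (t + 3) / 2) (by linarith),
    c1_of_le (a := (t - 1) / 2) (by linarith)]
  constructor <;> ring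

lemma gh4 {t : ℝ} (ht : 1 ≤ t) (ht' : t ≤ 3) : g t = -5 ∧ h t = 1 + (t - 1) / 2 := by
  unfold g h
  rw [cl_of_mem (a := t) (by linarith) (by linarith), cl_of_ge (a := 5 * t + 20) (by linarith),
    cl_of_ge (a := 5 * t) (by linarith),
    cl_of_le (a := 5 * t - 20) (by linarith), c1_of_ge (a := (t + 3) / 2) (by linarith),
    c1_of_mem (a := (t - 1) / 2) (by linarith) (by linarith)]
  constructor <;> ring

lemma gh5 {t : ℝ} (ht : 3 ≤ t) (ht' : t ≤ 5) : g t = 5 * t - 20 ∧ h t = 2 := by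
  unfold g h
  rw [cl_of_mem (a := t) (by linarith) (by linarith), cl_of_ge (a := 5 * t + 20) (by linarith),
    cl_of_ge (a := 5 * t) (by linarith),
    cl_of_mem (a := 5 * t - 20) (by linarith) (by linarith), c1_of_ge (a := (t + 3) / 2) (by linarith),
    c1_of_ge (a := (t - 1) / 2) (by linarith)]
  constructor <;> ring

lemma gh6 {t : ℝ} (ht : 5 ≤ t) : g t = t ∧ h t = t - 3 := by
  unfold g h
  rw [cl_of_ge (a := t) (by linarith), cl_of_ge (a := 5 * t + 20) (by linarith),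
    cl_of_ge (a := 5 * t) (by linarith),
    cl_of_ge (a := 5 * t - 20) (by linarith), c1_of_ge (a := (t + 3) / 2) (by linarith),
    c1_of_ge (a := (t - 1) / 2) (by linarith)]
  constructor <;> ring

/-- the seven pieces of the path -/
lemma cases (t : ℝ) : (t ≤ -5 ∧ g t = t ∧ h t = t + 5) ∨
    (-5 ≤ t ∧ t ≤ -3 ∧ g t = 5 * t + 20 ∧ h t = 0) ∨
    (-3 ≤ t ∧ t ≤ -1 ∧ g t = 5 ∧ h t = (t + 3) / 2) ∨
    (-1 ≤ t ∧ t ≤ 1 ∧ g t = -5 * t ∧ h t = 1) ∨
    (1 ≤ t ∧ t ≤ 3 ∧ g t = -5 ∧ h t = 1 + (t - 1) / 2) ∨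
    (3 ≤ t ∧ t ≤ 5 ∧ g t = 5 * t - 20 ∧ h t = 2) ∨
    (5 ≤ t ∧ g t = t ∧ h t = t - 3) := by
  rcases le_total t (-5) with h0 | h0
  · exact Or.inl ⟨h0, gh0 h0⟩
  rcases le_total t (-3) with h1 | h1
  · exact Or.inr (Or.inl ⟨h0, h1, gh1 h0 h1⟩)
  rcases le_total t (-1) with h2 | h2
  · exact Or.inr (Or.inr (Or.inl ⟨h1, h2, gh2 h1 h2⟩))
  rcases le_total t 1 with h3 | h3
  · exact Or.inr (Or.inr (Or.inr (Or.inl ⟨h2, h3, gh3 h2 h3⟩)))
  rcases le_total t 3 with h4 | h4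
  · exact Or.inr (Or.inr (Or.inr (Or.inr (Or.inl ⟨h3, h4, gh4 h3 h4⟩))))
  rcases le_total t 5 with h5 | h5
  · exact Or.inr (Or.inr (Or.inr (Or.inr (Or.inr (Or.inl ⟨h4, h5, gh5 h4 h5⟩)))))
  · exact Or.inr (Or.inr (Or.inr (Or.inr (Or.inr (Or.inr ⟨h5, gh6 h5⟩)))))

lemma gh_inj {s t : ℝ} (h1 : g s = g t) (h2 : h s = h t) : s = t := by
  rcases cases s with hs | hs | hs | hs | hs | hs | hs <;>
  rcases cases t with ht | ht | ht | ht | ht | ht | ht <;>
  linarith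

lemma g_fix {t : ℝ} (ht : 5 ≤ |t|) : g t = t := by
  rcases le_abs'.1 ht with h0 | h0
  · exact (gh0 h0).1
  · exact (gh6 h0).1

lemma g_abs_le {t : ℝ} (ht : |t| ≤ 5) : |g t| ≤ 5 := by
  obtain ⟨h1, h2⟩ := abs_le.1 ht
  rw [abs_le]
  rcases cases t with hs | hs | hs | hs | hs | hs | hs <;> constructor <;> linarith

lemma h_eq_cases {s t : ℝ} (h1 : h s = h t) : s = t ∨ (|s| ≤ 5 ∧ |t| ≤ 5) := by
  rw [abs_le, abs_le]
  rcases lt_or_ge s (-5) with hs | hs
  · left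
    have := (gh0 hs.le).2
    rcases cases t with ht | ht | ht | ht | ht | ht | ht <;> linarith
  rcases lt_or_ge 5 s with hs' | hs'
  · left
    have := (gh6 hs'.le).2
    rcases cases t with ht | ht | ht | ht | ht | ht | ht <;> linarith
  rcases lt_or_ge t (-5) with ht | ht
  · left
    have := (gh0 ht.le).2
    rcases cases s with hs | hs | hs | hs | hs | hs | hs <;> linarith
  rcases lt_or_ge 5 t with ht' | ht'
  · left
    have := (gh6 ht'.le).2
    rcases cases s with hs | hs | hs | hs | hs | hs | hs <;> linarith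
  exact Or.inr ⟨⟨hs, hs'⟩, ht, ht'⟩

lemma level_zero {z : ℝ} (hz : |z| ≤ 5) : ∃ τ, |τ| ≤ 5 ∧ g τ = z ∧ h τ = 0 ∧ τ ≤ -3 := by
  obtain ⟨h1, h2⟩ := abs_le.1 hz
  refine ⟨(z - 20) / 5, ?_, ?_, ?_, ?_⟩
  · rw [abs_le]; constructor <;> linarith
  · rw [(gh1 (by linarith) (by linarith)).1]; ring
  · rw [(gh1 (by linarith) (by linarith)).2]
  · linarith

lemma level {t z : ℝ} (ht : |t| ≤ 5) (hg : |g t| < 5) (hz : |z| ≤ 5) :
    ∃ τ, |τ| ≤ 5 ∧ g τ = z ∧ h τ = h t := by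
  obtain ⟨h1, h2⟩ := abs_le.1 ht
  obtain ⟨h3, h4⟩ := abs_lt.1 hg
  obtain ⟨h5, h6⟩ := abs_le.1 hz
  have key : h t = 0 ∨ h t = 1 ∨ h t = 2 := by
    rcases cases t with hs | hs | hs | hs | hs | hs | hs
    · exfalso; linarith
    · exact Or.inl hs.2.2.2
    · exfalso; linarith
    · exact Or.inr (Or.inl hs.2.2.2)
    · exfalso; linarith
    · exact Or.inr (Or.inr hs.2.2.2)
    · exfalso; linarith
  rcases key with hk | hk | hk
  · obtain ⟨τ, h7, h8, h9, -⟩ := level_zero hz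
    exact ⟨τ, h7, h8, by rw [h9, hk]⟩
  · refine ⟨-z / 5, ?_, ?_, ?_⟩
    · rw [abs_le]; constructor <;> linarith
    · rw [(gh3 (by linarith) (by linarith)).1]; ring
    · rw [(gh3 (by linarith) (by linarith)).2, hk]
  · refine ⟨(z + 20) / 5, ?_, ?_, ?_⟩
    · rw [abs_le]; constructor <;> linarith
    · rw [(gh5 (by linarith) (by linarith)).1]; ring
    · rw [(gh5 (by linarith) (by linarith)).2, hk]

end Pool.Agent.Lib_helper54.Shadow
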