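import Pool.Agent.Lib_helper54.Shadow.Brouwer

/-!
# A sphere does not embed in a space of at most its own dimension
-/

namespace Pool.Agent.Lib_helper54.Shadow

open Set Metric Topology Module

/-- A continuous map from the unit sphere of `E` to a space of dimension smaller than `dim E` is
not injective. -/
theorem no_embedding {E V : Type} [NormedAddCommGroup E] [InnerProductSpace ℝ E]
    [FiniteDimensional ℝ E] [NormedAddCommGroup V] [NormedSpace ℝ V] [FiniteDimensional ℝ V]
    (hdim : finrank ℝ V < finrank ℝ E) (f : sphere (0 : E) 1 → V) (hf : Continuous f)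
    (hinj : Function.Injective f) : False := by
  have hfe : IsClosedEmbedding f := hf.isClosedEmbedding hinj
  obtain ⟨G, hG⟩ := ContinuousMap.exists_extension (Y := E) hfe
    ⟨fun x => (x : E), continuous_subtype_val⟩
  have hce : IsClosedEmbedding (Subtype.val : sphere (0 : E) 1 → E) :=
    isClosed_sphere.isClosedEmbedding_subtypeVal
  obtain ⟨g, hg⟩ := ContinuousMap.exists_extension (Y := V) hce ⟨f, hf⟩
  have hG' : ∀ x : sphere (0 : E) 1, G (f x) = x := fun x => congrArg (fun φ => φ x) hG
  have hg' : ∀ x : sphere (0 : E) 1, g (x : E) = f x := fun x => congrArg (fun φ => φ x) hg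
  obtain ⟨P, hPs, hPa, -⟩ := G.continuous.exists_contDiff_approx 1 (ε := fun _ => (1 / 4 : ℝ))
    continuous_const (fun _ => by norm_num)
  have hdense := ContDiff.dense_compl_range_of_finrank_lt_finrank (by simpa using hPs) hdim
  obtain ⟨c, hc1, hc2⟩ := hdense.exists_dist_lt 0 (by norm_num : (0 : ℝ) < 1 / 4)
  rw [dist_comm, dist_zero_right] at hc2
  set H : E → E := fun x => P (g x) - c with hH
  have hHc : Continuous H := (hPs.continuous.comp g.continuous).sub continuous_const
  have hH0 : ∀ x, H x ≠ 0 := by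
    intro x h0
    apply hc1
    exact ⟨g x, sub_eq_zero.1 h0⟩
  have hHn : ∀ x, ‖H x‖ ≠ 0 := fun x => norm_ne_zero_iff.2 (hH0 x)
  obtain ⟨x, hx, hfx⟩ := Pool.Agent.Lib_helper54.Shadow.Br.brouwer (f := fun x => -(‖H x‖⁻¹ • H x))
    ((hHc.norm.inv₀ hHn).smul hHc).neg.continuousOn (by
      intro y _
      rw [mem_closedBall, dist_zero_right, norm_neg, norm_smul, norm_inv, norm_norm,
        inv_mul_cancel₀ (hHn y)])
  have hx1 : ‖x‖ = 1 := by
    rw [← hfx, norm_neg, norm_smul, norm_inv, norm_norm, inv_mul_cancel₀ (hHn x)]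
  have hHx : H x = -(‖H x‖ • x) := by
    nth_rewrite 3 [← hfx]
    rw [smul_neg, smul_smul, mul_inv_cancel₀ (hHn x), one_smul, neg_neg]
  have hxs : x ∈ sphere (0 : E) 1 := by rw [mem_sphere, dist_zero_right]; exact hx1
  have h1 : ‖H x - x‖ < 1 / 2 := by
    have h2 : H x - x = (P (g x) - G (g x)) - c := by
      have h3 : G (g x) = x := by
        have := hg' ⟨x, hxs⟩
        simp only at this
        rw [this, hG']
      rw [h3]
      show P (g x) - c - x = P (g x) - x - c
      abel
    rw [h2]
    have h4 := hPa (g x)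
    rw [dist_eq_norm] at h4
    calc _ ≤ ‖P (g x) - G (g x)‖ + ‖c‖ := norm_sub_le _ _
      _ < 1 / 2 := by linarith
  have h2 : ‖H x - x‖ = ‖H x‖ + 1 := by
    have h3 : H x - x = -((‖H x‖ + 1) • x) := by
      nth_rewrite 1 [hHx]
      rw [add_smul, one_smul]; abel
    rw [h3, norm_neg, norm_smul, hx1, mul_one, Real.norm_of_nonneg (by positivity)]
  have := norm_nonneg (H x)
  linarith

end Pool.Agent.Lib_helper54.Shadow
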