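import Pool.Agent.Lib_helper54.Shadow.Curve

/-!
# Folded spheres: the inductive step
-/

namespace Pool.Agent.Lib_helper54.Shadow

open Set

/-- Orthogonal projection to the `i`-th coordinate hyperplane. -/
def pr {d : ℕ} (i : Fin d) (v : Fin d → ℝ) : Fin d → ℝ := Function.update v i 0

/-- The boundary of the cube `[-6,6]^(k+1)`. -/
def S (k : ℕ) : Set (Fin (k + 1) → ℝ) := {x | ‖x‖ = 6}

/-- A topological `k`-sphere in `ℝ^d` with prescribed shadows `F i`, and an open set `U` which is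
invisible in every shadow. -/
structure Folded (k d : ℕ) (f : (Fin (k + 1) → ℝ) → (Fin d → ℝ))
    (F : Fin d → (Fin (k + 1) → ℝ) → (Fin d → ℝ)) (U : Set (Fin (k + 1) → ℝ)) : Prop where
  cf : Continuous f
  inj : InjOn f (S k)
  cF : ∀ i, Continuous (F i)
  injM : ∀ i, InjOn (F i) (S k ∩ {x | |x 0| ≤ 5})
  injS : ∀ i c, InjOn (F i) (S k ∩ {x | x 0 = c})
  cap : ∀ i, ∀ x ∈ S k, 5 ≤ |x 0| → pr i (f x) = F i x
  into : ∀ i, ∀ x ∈ S k, |x 0| ≤ 5 → ∃ z ∈ S k, |z 0| ≤ 5 ∧ pr i (f x) = F i z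
  onto : ∀ i, ∀ z ∈ S k, |z 0| ≤ 5 → ∃ x ∈ S k, |x 0| ≤ 5 ∧ x ∉ U ∧ pr i (f x) = F i z
  openU : IsOpen U
  neU : (S k ∩ U).Nonempty
  subU : ∀ x ∈ U, |x 0| < 5

/-- fold in the direction of the zeroth coordinate -/
noncomputable def sg {k : ℕ} (x : Fin (k + 1) → ℝ) : Fin (k + 1) → ℝ :=
  Function.update x 0 (g (x 0))

lemma continuous_sg {k : ℕ} : Continuous (sg (k := k)) := by
  unfold sg
  exact continuous_id.update 0 (continuous_g.comp (continuous_apply 0))

@[simp] lemma sg_zero {k : ℕ} (x : Fin (k + 1) → ℝ) : sg x 0 = g (x 0) := by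
  simp [sg]

lemma sg_fix {k : ℕ} {x : Fin (k + 1) → ℝ} (hx : 5 ≤ |x 0|) : sg x = x := by
  unfold sg; rw [g_fix hx, Function.update_eq_self]

lemma update_mem_S {k : ℕ} {x : Fin (k + 1) → ℝ} (hx : x ∈ S k) (h0 : |x 0| ≤ 5) {τ : ℝ}
    (hτ : |τ| ≤ 5) : Function.update x 0 τ ∈ S k := by
  have hx' : ‖x‖ = 6 := hx
  show ‖_‖ = (6 : ℝ)
  apply le_antisymm
  · rw [pi_norm_le_iff_of_nonneg (by norm_num)]
    intro j
    rcases eq_or_ne j 0 with rfl | hj
    · rw [Function.update_self, Real.norm_eq_abs]; linarith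
    · rw [Function.update_of_ne hj]
      rw [← hx']; exact norm_le_pi_norm x j
  · by_contra hlt
    push Not at hlt
    rw [pi_norm_lt_iff (by norm_num)] at hlt
    have : ‖x‖ < 6 := by
      rw [pi_norm_lt_iff (by norm_num)]
      intro j
      rcases eq_or_ne j 0 with rfl | hj
      · rw [Real.norm_eq_abs]; linarith
      · have := hlt j
        rwa [Function.update_of_ne hj] at this
    linarith

lemma sg_mem_S {k : ℕ} {x : Fin (k + 1) → ℝ} (hx : x ∈ S k) : sg x ∈ S k := by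
  rcases le_total (|x 0|) 5 with h0 | h0
  · exact update_mem_S hx h0 (g_abs_le h0)
  · rw [sg_fix h0]; exact hx

lemma sg_abs_le {k : ℕ} {x : Fin (k + 1) → ℝ} (h0 : |x 0| ≤ 5) : |sg x 0| ≤ 5 := by
  rw [sg_zero]; exact g_abs_le h0

lemma sg_h_inj {k : ℕ} {x y : Fin (k + 1) → ℝ} (h1 : sg x = sg y) (h2 : h (x 0) = h (y 0)) :
    x = y := by
  have h3 : g (x 0) = g (y 0) := by
    have := congrFun h1 0
    rwa [sg_zero, sg_zero] at this
  have h4 := gh_inj h3 h2
  funext j
  rcases eq_or_ne j 0 with rfl | hj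
  · exact h4
  · have := congrFun h1 j
    simpa [sg, Function.update_of_ne hj] using this

lemma sg_update {k : ℕ} (x : Fin (k + 1) → ℝ) {τ : ℝ} (h0 : g τ = x 0) :
    sg (Function.update x 0 τ) = x := by
  unfold sg
  rw [Function.update_self, h0, Function.update_idem, Function.update_eq_self]

lemma pr_snoc_castSucc {d : ℕ} (i : Fin d) (v : Fin d → ℝ) (a : ℝ) :
    pr i.castSucc (Fin.snoc v a : Fin (d + 1) → ℝ) = Fin.snoc (pr i v) a := by
  unfold pr
  exact (Fin.snoc_update (α := fun _ => ℝ) a v i 0).symm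

lemma pr_snoc_last {d : ℕ} (v : Fin d → ℝ) (a : ℝ) :
    pr (Fin.last d) (Fin.snoc v a : Fin (d + 1) → ℝ) = Fin.snoc v 0 := by
  unfold pr
  exact Fin.update_snoc_last (α := fun _ => ℝ) a v 0

lemma snoc_inj {d : ℕ} {v w : Fin d → ℝ} {a b : ℝ}
    (hvw : (Fin.snoc v a : Fin (d + 1) → ℝ) = Fin.snoc w b) : v = w ∧ a = b := by
  constructor
  · have := congrArg (Fin.init (α := fun _ => ℝ)) hvw
    rwa [Fin.init_snoc, Fin.init_snoc] at this
  · have := congrFun hvw (Fin.last d)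
    rwa [Fin.snoc_last, Fin.snoc_last] at this

/-- the new sphere -/
noncomputable def f' {k d : ℕ} (f : (Fin (k + 1) → ℝ) → (Fin d → ℝ)) (x : Fin (k + 1) → ℝ) :
    Fin (d + 1) → ℝ := Fin.snoc (f (sg x)) (h (x 0))

/-- the new shadows -/
noncomputable def F' {k d : ℕ} (f : (Fin (k + 1) → ℝ) → (Fin d → ℝ))
    (F : Fin d → (Fin (k + 1) → ℝ) → (Fin d → ℝ)) (i : Fin (d + 1)) (x : Fin (k + 1) → ℝ) :
    Fin (d + 1) → ℝ :=
  Fin.lastCases (motive := fun _ => Fin (d + 1) → ℝ) (Fin.snoc (f x) 0)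
    (fun j => Fin.snoc (F j (sg x)) (h (x 0))) i

/-- the new invisible set -/
def U' {k : ℕ} (U : Set (Fin (k + 1) → ℝ)) : Set (Fin (k + 1) → ℝ) := sg ⁻¹' U ∩ {x | |x 0| < 1}

lemma F'_castSucc {k d : ℕ} (f : (Fin (k + 1) → ℝ) → (Fin d → ℝ))
    (F : Fin d → (Fin (k + 1) → ℝ) → (Fin d → ℝ)) (i : Fin d) (x : Fin (k + 1) → ℝ) :
    F' f F i.castSucc x = Fin.snoc (F i (sg x)) (h (x 0)) := by
  simp [F']

lemma F'_last {k d : ℕ} (f : (Fin (k + 1) → ℝ) → (Fin d → ℝ))
    (F : Fin d → (Fin (k + 1) → ℝ) → (Fin d → ℝ)) (x : Fin (k + 1) → ℝ) :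
    F' f F (Fin.last d) x = Fin.snoc (f x) 0 := by
  simp [F']

/-- After folding, every shadow is injective on the whole sphere. -/
theorem Folded.inj' {k d : ℕ} {f : (Fin (k + 1) → ℝ) → (Fin d → ℝ)}
    {F : Fin d → (Fin (k + 1) → ℝ) → (Fin d → ℝ)} {U : Set (Fin (k + 1) → ℝ)}
    (H : Folded k d f F U) (i : Fin (d + 1)) : InjOn (F' f F i) (S k) := by
  intro x hx y hy hxy
  induction i using Fin.lastCases with
  | last =>
    rw [F'_last, F'_last] at hxy
    exact H.inj hx hy (snoc_inj hxy).1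
  | cast i =>
    rw [F'_castSucc, F'_castSucc] at hxy
    obtain ⟨h1, h2⟩ := snoc_inj hxy
    rcases h_eq_cases h2 with h3 | ⟨h3, h4⟩
    · by_cases h5 : |x 0| ≤ 5
      · have h6 : |y 0| ≤ 5 := by rwa [← h3]
        exact sg_h_inj (H.injM i ⟨sg_mem_S hx, sg_abs_le h5⟩ ⟨sg_mem_S hy, sg_abs_le h6⟩ h1) h2
      · push Not at h5
        have h6 : 5 ≤ |y 0| := by rw [← h3]; exact h5.le
        rw [sg_fix h5.le, sg_fix h6] at h1
        exact H.injS i (x 0) ⟨hx, rfl⟩ ⟨hy, h3.symm⟩ h1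
    · exact sg_h_inj (H.injM i ⟨sg_mem_S hx, sg_abs_le h3⟩ ⟨sg_mem_S hy, sg_abs_le h4⟩ h1) h2

/-- The inductive step. -/
theorem Folded.step {k d : ℕ} {f : (Fin (k + 1) → ℝ) → (Fin d → ℝ)}
    {F : Fin d → (Fin (k + 1) → ℝ) → (Fin d → ℝ)} {U : Set (Fin (k + 1) → ℝ)}
    (H : Folded k d f F U) : Folded k (d + 1) (f' f) (F' f F) (U' U) where
  cf := by
    unfold f'
    exact (H.cf.comp continuous_sg).finSnoc (continuous_h.comp (continuous_apply 0))
  inj := by
    intro x hx y hy hxy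
    obtain ⟨h1, h2⟩ := snoc_inj hxy
    exact sg_h_inj (H.inj (sg_mem_S hx) (sg_mem_S hy) h1) h2
  cF := by
    intro i
    induction i using Fin.lastCases with
    | last =>
      have : F' f F (Fin.last d) = fun x => (Fin.snoc (f x) 0 : Fin (d + 1) → ℝ) := by
        funext x; exact F'_last f F x
      rw [this]
      exact H.cf.finSnoc continuous_const
    | cast i =>
      have : F' f F i.castSucc = fun x => (Fin.snoc (F i (sg x)) (h (x 0)) : Fin (d + 1) → ℝ) := by
        funext x; exact F'_castSucc f F i x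
      rw [this]
      exact ((H.cF i).comp continuous_sg).finSnoc (continuous_h.comp (continuous_apply 0))
  injM := fun i => (H.inj' i).mono inter_subset_left
  injS := fun i _ => (H.inj' i).mono inter_subset_left
  cap := by
    intro i x hx h5
    induction i using Fin.lastCases with
    | last =>
      rw [F'_last, f', pr_snoc_last, sg_fix h5]
    | cast i =>
      rw [F'_castSucc, f', pr_snoc_castSucc, sg_fix h5, H.cap i x hx h5]
  into := by
    intro i x hx h5
    induction i using Fin.lastCases with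
    | last =>
      refine ⟨sg x, sg_mem_S hx, sg_abs_le h5, ?_⟩
      rw [F'_last, f', pr_snoc_last]
    | cast i =>
      rcases eq_or_lt_of_le (sg_abs_le h5) with h6 | h6
      · refine ⟨x, hx, h5, ?_⟩
        rw [F'_castSucc, f', pr_snoc_castSucc, H.cap i (sg x) (sg_mem_S hx) h6.ge]
      · obtain ⟨z, hz, hz0, hzz⟩ := H.into i (sg x) (sg_mem_S hx) (sg_abs_le h5)
        rw [sg_zero] at h6
        obtain ⟨τ, h7, h8, h9⟩ := level h5 h6 hz0
        refine ⟨Function.update z 0 τ, update_mem_S hz hz0 h7, ?_, ?_⟩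
        · rwa [Function.update_self]
        · rw [F'_castSucc, f', pr_snoc_castSucc, sg_update z h8, Function.update_self, hzz, h9]
  onto := by
    intro i z hz h5
    induction i using Fin.lastCases with
    | last =>
      obtain ⟨τ, h7, h8, h9, h10⟩ := level_zero h5
      refine ⟨Function.update z 0 τ, update_mem_S hz h5 h7, ?_, ?_, ?_⟩
      · rwa [Function.update_self]
      · rintro ⟨-, h11⟩
        simp only [mem_setOf_eq, Function.update_self] at h11
        rw [abs_lt] at h11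
        linarith [h11.1]
      · rw [F'_last, f', pr_snoc_last, sg_update z h8]
    | cast i =>
      rcases eq_or_lt_of_le (sg_abs_le h5) with h6 | h6
      · refine ⟨z, hz, h5, ?_, ?_⟩
        · rintro ⟨h11, -⟩
          have := H.subU _ h11
          linarith
        · rw [F'_castSucc, f', pr_snoc_castSucc, H.cap i (sg z) (sg_mem_S hz) h6.ge]
      · obtain ⟨y, hy, hy0, hyU, hyy⟩ := H.onto i (sg z) (sg_mem_S hz) (sg_abs_le h5)
        rw [sg_zero] at h6
        obtain ⟨τ, h7, h8, h9⟩ := level h5 h6 hy0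
        refine ⟨Function.update y 0 τ, update_mem_S hy hy0 h7, ?_, ?_, ?_⟩
        · rwa [Function.update_self]
        · rintro ⟨h11, -⟩
          rw [mem_preimage, sg_update y h8] at h11
          exact hyU h11
        · rw [F'_castSucc, f', pr_snoc_castSucc, sg_update y h8, Function.update_self, hyy, h9]
  openU := by
    refine (H.openU.preimage continuous_sg).inter ?_
    exact isOpen_lt (continuous_abs.comp (continuous_apply 0)) continuous_const
  neU := by
    obtain ⟨u, hu, huU⟩ := H.neU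
    have h1 := H.subU u huU
    have h2 := abs_lt.1 h1
    have h3 := gh3 (t := -(u 0) / 5) (by linarith) (by linarith)
    have h4 : g (-(u 0) / 5) = u 0 := by rw [h3.1]; ring
    refine ⟨Function.update u 0 (-(u 0) / 5), update_mem_S hu h1.le ?_, ?_, ?_⟩
    · rw [abs_le]; constructor <;> linarith
    · rw [mem_preimage, sg_update u h4]; exact huU
    · simp only [mem_setOf_eq, Function.update_self]
      rw [abs_lt]; constructor <;> linarith
  subU := by
    rintro x ⟨-, hx⟩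
    simp only [mem_setOf_eq] at hx
    linarith

/-- In a folded sphere the shadow of the complement of `U` is the whole `F i` image. -/
theorem Folded.image {k d : ℕ} {f : (Fin (k + 1) → ℝ) → (Fin d → ℝ)}
    {F : Fin d → (Fin (k + 1) → ℝ) → (Fin d → ℝ)} {U : Set (Fin (k + 1) → ℝ)}
    (H : Folded k d f F U) (i : Fin d) {T : Set (Fin (k + 1) → ℝ)} (hT : T ⊆ S k)
    (hTU : S k \ U ⊆ T) : pr i '' (f '' T) = F i '' (S k) := by
  apply Subset.antisymm
  · rintro _ ⟨_, ⟨x, hx, rfl⟩, rfl⟩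
    rcases le_total (|x 0|) 5 with h5 | h5
    · obtain ⟨z, hz, -, hzz⟩ := H.into i x (hT hx) h5
      exact ⟨z, hz, hzz.symm⟩
    · exact ⟨x, hT hx, (H.cap i x (hT hx) h5).symm⟩
  · rintro _ ⟨z, hz, rfl⟩
    rcases le_total (|z 0|) 5 with h5 | h5
    · obtain ⟨x, hx, -, hxU, hxx⟩ := H.onto i z hz h5
      exact ⟨f x, ⟨x, hTU ⟨hx, hxU⟩, rfl⟩, hxx⟩
    · refine ⟨f z, ⟨z, hTU ⟨hz, fun hU => ?_⟩, rfl⟩, H.cap i z hz h5⟩
      exact absurd (H.subU z hU) (not_lt.2 h5)

end Pool.Agent.Lib_helper54.Shadow
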